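import Pool.Agent.H66.IP.TC

/-!
# Row GLC of the board `ipf_modules`: on which strings it depends whether an instance is good
-/

set_option autoImplicit false

namespace Pool.Agent.H75.IP

open Finset Pool.Agent.H6.NB Pool.Agent.H70.OQ Pool.Agent.H70.EH Pool.Agent.H70.EI Pool.Agent.H78.XQ
open Pool.Agent.H66.IP
open Pool.Agent.H75.OM (BPos)

theorem pf_GLC : T_GLC := by
  classical
  intro V p O O' h hg
  have h1 : (V p.1).acc p.2 O ↔ (V p.1).acc p.2 O' := by
    refine (V p.1).loc p.2 O O' fun w hw => h w (Or.inl ?_)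
    unfold scl
    omega
  have h2 : cps O (sp V p) = cps O' (sp V p) := by
    funext u v
    exact h _ (Or.inr (Or.inl ⟨u, v.2, v.1, rfl⟩))
  have h3 : cst O (sp V p) = cst O' (sp V p) := by
    funext z
    exact h _ (Or.inr (Or.inr ⟨z, rfl⟩))
  unfold Good at hg ⊢
  rw [← h2, ← h3]
  have h4 : decide ((V p.1).acc p.2 O') = decide ((V p.1).acc p.2 O) := by
    rw [decide_eq_decide]
    exact h1.symm
  rw [h4]
  exact hg

end Pool.Agent.H75.IP
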