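import Pool.Agent.H66.IP.TC
import Pool.Agent.H75.OM.TD

/-!
# Row ISZ of the board `ipf_modules`: the oracle with blocks and a default exists
-/

set_option autoImplicit false

namespace Pool.Agent.H75.IP

open Finset Pool.Agent.H6.NB Pool.Agent.H70.OQ Pool.Agent.H70.EH Pool.Agent.H70.EI Pool.Agent.H78.XQ
open Pool.Agent.H66.IP
open Pool.Agent.H75.OM (BPos)

/-- a machine which makes no queries -/
def dfm : Machine 1 where
  c := 0
  tree _ _ := .leaf false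
  depth_le _ _ _ _ := Nat.zero_le _
  short _ _ _ _ := trivial

/-- contents of the blocks as coordinates of the old oracle -/
noncomputable def trz (V : ℕ → ATM) (W : ℕ → Hm) (ρ : ℕ → ℕ) (E : Finset (ℕ × List Bool))
    (E' : Finset Ix) (h : ∀ p, Sum.inl p ∈ E' → p ∈ E) (h' : ∀ a, Sum.inr a ∉ E')
    (P : ∀ p : {a // a ∈ E}, CP V p.1) : ∀ i : {a // a ∈ E'}, Cx V W ρ i.1
  | ⟨.inl p, hp⟩ => (P ⟨p, h p hp⟩ : CP V p)
  | ⟨.inr a, ha⟩ => absurd ha (h' a)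

theorem pf_ISZ (hISY : Pool.Agent.H75.OM.T_ISY) (hRHO : Pool.Agent.H70.EI.T_RHO) : T_ISZ := by
  classical
  intro V E
  let W : ℕ → Hm := fun _ => ⟨0, dfm⟩
  obtain ⟨ρ, hρ⟩ := hRHO W
  let E' : Finset Ix := E.map ⟨Sum.inl, Sum.inl_injective⟩
  obtain ⟨O, hO⟩ := hISY V W ρ hρ E'
  have hm1 : ∀ p, Sum.inl p ∈ E' → p ∈ E := by
    intro p hp
    rw [Finset.mem_map] at hp
    obtain ⟨q, hq, he⟩ := hp
    have : q = p := Sum.inl_injective he
    exact this ▸ hq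
  have hm1' : ∀ p ∈ E, (Sum.inl p : Ix) ∈ E' := fun p hp =>
    Finset.mem_map.2 ⟨p, hp, rfl⟩
  have hm2 : ∀ a, Sum.inr a ∉ E' := by
    intro a ha
    rw [Finset.mem_map] at ha
    obtain ⟨q, _, he⟩ := ha
    exact Sum.inl_ne_inr he
  refine ⟨fun P g => O (trz V W ρ E E' hm1 hm2 P) g, ⟨?_, ?_, ?_⟩⟩
  · intro P g p h
    exact (hO.isx g).blk (trz V W ρ E E' hm1 hm2 P) p (hm1' p h)
  · intro P g p h
    exact (hO.isx g).cor (trz V W ρ E E' hm1 hm2 P) p (hm1' p h)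
  · intro w hw P g
    exact hO.out w (fun p hp => hw p (hm1 p hp)) (fun a ha => absurd ha (hm2 a)) _ g

end Pool.Agent.H75.IP
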