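import Pool.Agent.H66.IP.TC

/-!
# Row FDC of the board `ipf_modules`: the answers do not depend on the contents of the blocks of
the same or larger scale
-/

set_option autoImplicit false

namespace Pool.Agent.H75.IP

open Finset Pool.Agent.H6.NB Pool.Agent.H70.OQ Pool.Agent.H70.EH Pool.Agent.H70.EI Pool.Agent.H78.XQ
open Pool.Agent.H66.IP
open Pool.Agent.H75.OM (BPos)

theorem pf_FDC (hIZU : T_IZU) (hSPF : T_SPF) : T_FDC := by
  classical
  intro V E O hO P g p p' h c hs
  obtain ⟨-, s2, -, s4, -, -⟩ := hSPF V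
  refine (V p.1).loc p.2 _ _ fun w hw => ?_
  refine ((hIZU (dm V) E O hO).1 P g p' h).1 w c fun hb => ?_
  have e1 := (s4 p' w hb).1
  obtain ⟨e2, e3, -⟩ := s2 p'
  have e4 : scl V p' ≤ 16 * scl V p' ^ 3 := by
    calc scl V p' = scl V p' ^ 1 := (pow_one _).symm
      _ ≤ scl V p' ^ 3 := Nat.pow_le_pow_right (by omega) (by norm_num)
      _ ≤ 16 * scl V p' ^ 3 := by omega
  have e5 : p.2.length ^ (V p.1).c + (V p.1).c ≤ scl V p := by
    unfold scl
    omega
  omega

end Pool.Agent.H75.IP
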